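import Mathlib

/-!
# Representable implication semigroups do not form a variety

We give a subalgebra with nine elements of the full implication semigroup over `Fin 4 × Fin 4`
and a homomorphic image of it with seven elements which is not representable.
-/

set_option autoImplicit false

namespace Pool.Agent.Results.MP_390e14_lc.NotVariety

/-- An algebra of the signature `(→, ;)`: two binary operations on the set `A`. -/
structure Ops (A : Type) where
  /-- the operation `→` -/
  imp : A → A → A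
  /-- the operation `;` -/
  comp : A → A → A

/-- Composition of binary relations, given as sets of pairs. -/
def relComp {X : Type} (a b : Set (X × X)) : Set (X × X) :=
  {p | ∃ y, (p.1, y) ∈ a ∧ (y, p.2) ∈ b}

/-- An algebra is representable if it embeds into the full implication semigroup `𝔖(T)` over
some transitive relation `T` on some set `X`. -/
def Representable {A : Type} (S : Ops A) : Prop :=
  ∃ (X : Type) (T : Set (X × X)) (h : A → Set (X × X)),
    (∀ x y z, (x, y) ∈ T → (y, z) ∈ T → (x, z) ∈ T) ∧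
    Function.Injective h ∧
    (∀ a, h a ⊆ T) ∧
    (∀ a b, h (S.imp a b) = (T \ h a) ∪ h b) ∧
    (∀ a b, h (S.comp a b) = relComp (h a) (h b))

/-- `f` is a homomorphism. -/
def IsHom {A B : Type} (S : Ops A) (S' : Ops B) (f : A → B) : Prop :=
  (∀ a b, f (S.imp a b) = S'.imp (f a) (f b)) ∧ (∀ a b, f (S.comp a b) = S'.comp (f a) (f b))

/-- The class of representable algebras is closed under homomorphic images. -/
def ClosedUnderImages : Prop :=
  ∀ (A B : Type) (S : Ops A) (S' : Ops B) (f : A → B),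
    Function.Surjective f → IsHom S S' f → Representable S → Representable S'

/-- Terms of the signature `(→, ;)` over countably many variables. -/
inductive Tm where
  /-- a variable -/
  | var : ℕ → Tm
  /-- the term `s → t` -/
  | imp : Tm → Tm → Tm
  /-- the term `s ; t` -/
  | comp : Tm → Tm → Tm

/-- The value of a term. -/
def Tm.eval {A : Type} (S : Ops A) (v : ℕ → A) : Tm → A
  | .var n => v n
  | .imp s t => S.imp (s.eval S v) (t.eval S v)
  | .comp s t => S.comp (s.eval S v) (t.eval S v)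

/-- The algebra satisfies all equations in the set `E`. -/
def Models {A : Type} (S : Ops A) (E : Set (Tm × Tm)) : Prop :=
  ∀ e ∈ E, ∀ v : ℕ → A, e.1.eval S v = e.2.eval S v

/-! ### The algebra with nine elements -/

/-- The table of `→` of the first algebra. -/
def impA : Fin 9 → Fin 9 → Fin 9 :=
  ![![0, 1, 2, 3, 4, 5, 6, 7, 8], ![0, 0, 2, 3, 6, 5, 6, 0, 0], ![0, 1, 0, 0, 4, 0, 6, 7, 8],
    ![0, 1, 5, 0, 4, 5, 6, 7, 8], ![0, 7, 2, 3, 0, 5, 0, 7, 0], ![0, 1, 3, 3, 4, 0, 6, 7, 8],
    ![0, 1, 2, 3, 8, 5, 0, 7, 8], ![0, 8, 2, 3, 4, 5, 6, 0, 8], ![0, 7, 2, 3, 6, 5, 6, 7, 0]]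

/-- The table of `;` of the first algebra. -/
def compA : Fin 9 → Fin 9 → Fin 9 :=
  ![![0, 0, 0, 0, 0, 0, 0, 0, 0], ![0, 0, 3, 0, 0, 0, 0, 0, 0], ![0, 4, 5, 0, 0, 5, 0, 0, 0],
    ![0, 0, 0, 0, 0, 0, 0, 0, 0], ![0, 0, 0, 0, 0, 0, 0, 0, 0], ![0, 0, 5, 0, 0, 5, 0, 0, 0],
    ![0, 0, 0, 0, 0, 0, 0, 0, 0], ![0, 0, 3, 0, 0, 0, 0, 0, 0], ![0, 0, 0, 0, 0, 0, 0, 0, 0]]

/-- The algebra with nine elements. -/
def algA : Ops (Fin 9) := ⟨impA, compA⟩

/-- The codes of the nine relations on `Fin 4`. -/
def codeA : Fin 9 → ℕ := ![65535, 53079, 46250, 65518, 65501, 46267, 65533, 53111, 65503]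

/-- The nine relations as Boolean matrices. -/
def matA (e : Fin 9) (i j : Fin 4) : Bool := (codeA e).testBit (4 * i.val + j.val)

lemma matA_imp : ∀ a b i j, matA (impA a b) i j = (!matA a i j || matA b i j) := by
  decide

lemma matA_comp : ∀ a b i k, matA (compA a b) i k = decide (∃ j, matA a i j ∧ matA b j k) := by
  decide

lemma matA_inj : ∀ a b, (∀ i j, matA a i j = matA b i j) → a = b := by
  decide

theorem representable_algA : Representable algA := by
  refine ⟨Fin 4, Set.univ, fun e => {p | matA e p.1 p.2 = true}, fun _ _ _ _ _ => trivial, ?_,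
    fun _ => Set.subset_univ _, ?_, ?_⟩
  · intro a b hab
    refine matA_inj a b fun i j => ?_
    have h : (i, j) ∈ {p : Fin 4 × Fin 4 | matA a p.1 p.2 = true} ↔
        (i, j) ∈ {p : Fin 4 × Fin 4 | matA b p.1 p.2 = true} := by
      simp only at hab
      rw [hab]
    exact Bool.eq_iff_iff.mpr h
  · intro a b
    ext ⟨i, j⟩
    change matA (impA a b) i j = true ↔ (True ∧ ¬ (matA a i j = true)) ∨ matA b i j = true
    rw [matA_imp]
    simp
  · intro a b
    ext ⟨i, k⟩
    change matA (compA a b) i k = true ↔ ∃ j, matA a i j = true ∧ matA b j k = true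
    rw [matA_comp]
    simp

/-! ### The algebra with seven elements -/

/-- The table of `→` of the second algebra. -/
def impB : Fin 7 → Fin 7 → Fin 7 :=
  ![![0, 1, 2, 3, 4, 5, 6], ![0, 0, 2, 3, 0, 5, 0], ![0, 1, 0, 0, 4, 0, 6],
    ![0, 1, 5, 0, 4, 5, 6], ![0, 6, 2, 3, 0, 5, 6], ![0, 1, 3, 3, 4, 0, 6],
    ![0, 4, 2, 3, 4, 5, 0]]

/-- The table of `;` of the second algebra. -/
def compB : Fin 7 → Fin 7 → Fin 7 :=
  ![![0, 0, 0, 0, 0, 0, 0], ![0, 0, 3, 0, 0, 0, 0], ![0, 4, 5, 0, 0, 5, 0],
    ![0, 0, 0, 0, 0, 0, 0], ![0, 0, 0, 0, 0, 0, 0], ![0, 0, 5, 0, 0, 5, 0],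
    ![0, 0, 3, 0, 0, 0, 0]]

/-- The algebra with seven elements. -/
def algB : Ops (Fin 7) := ⟨impB, compB⟩

/-- The homomorphism from the first algebra onto the second. -/
def proj : Fin 9 → Fin 7 := ![0, 1, 2, 3, 4, 5, 0, 6, 4]

lemma proj_surjective : Function.Surjective proj := by
  unfold Function.Surjective
  decide

lemma proj_isHom : IsHom algA algB proj := by
  constructor
  · change ∀ a b, proj (impA a b) = impB (proj a) (proj b)
    decide
  · change ∀ a b, proj (compA a b) = compB (proj a) (proj b)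
    decide

theorem not_representable_algB : ¬ Representable algB := by
  rintro ⟨X, T, h, _, hinj, hT, himp, hcomp⟩
  have i11 : h 0 = (T \ h 1) ∪ h 1 := himp 1 1
  have i12 : h 2 = (T \ h 1) ∪ h 2 := himp 1 2
  have i14 : h 0 = (T \ h 1) ∪ h 4 := himp 1 4
  have i32 : h 5 = (T \ h 3) ∪ h 2 := himp 3 2
  have c51 : h 0 = relComp (h 5) (h 1) := hcomp 5 1
  have c21 : h 4 = relComp (h 2) (h 1) := hcomp 2 1
  have c52 : h 5 = relComp (h 5) (h 2) := hcomp 5 2
  have c12 : h 3 = relComp (h 1) (h 2) := hcomp 1 2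
  have h0 : h 0 = T := by
    rw [i11]
    exact Set.sdiff_union_of_subset (hT 1)
  -- a pair outside `p`
  obtain ⟨⟨x, z⟩, hxT, hx4⟩ : ∃ q, q ∈ T ∧ q ∉ h 4 := by
    by_contra hcon
    push Not at hcon
    have h4 : h 4 = h 0 := by
      rw [h0]
      exact Set.Subset.antisymm (hT 4) hcon
    have := hinj h4
    exact absurd this (by decide)
  have key : ∀ y, (x, y) ∈ h 2 → (y, z) ∈ h 1 → False := by
    intro y h1 h2
    apply hx4
    rw [c21]
    exact ⟨y, h1, h2⟩
  have hx0 : (x, z) ∈ relComp (h 5) (h 1) := by rw [← c51, h0]; exact hxT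
  obtain ⟨y, hxy5, hyz1⟩ := hx0
  simp only at hxy5 hyz1
  have hxy2 : (x, y) ∉ h 2 := fun hc => key y hc hyz1
  have hxy1 : (x, y) ∈ h 1 := by
    by_contra hc
    apply hxy2
    rw [i12]
    exact Or.inl ⟨hT 5 hxy5, hc⟩
  have hyz4 : (y, z) ∈ h 4 := by
    have : (y, z) ∈ (T \ h 1) ∪ h 4 := by rw [← i14, h0]; exact hT 1 hyz1
    rcases this with ⟨_, hc⟩ | h4
    · exact absurd hyz1 hc
    · exact h4
  rw [c21] at hyz4
  obtain ⟨w, hyw2, hwz1⟩ := hyz4
  simp only at hyw2 hwz1
  have hxw5 : (x, w) ∈ h 5 := by rw [c52]; exact ⟨y, hxy5, hyw2⟩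
  have hxw3 : (x, w) ∈ h 3 := by rw [c12]; exact ⟨y, hxy1, hyw2⟩
  rw [i32] at hxw5
  rcases hxw5 with ⟨_, hc⟩ | hxw2
  · exact hc hxw3
  · exact key w hxw2 hwz1

lemma eval_hom {A B : Type} {S : Ops A} {S' : Ops B} {f : A → B} (hf : IsHom S S' f)
    (v : ℕ → A) (t : Tm) : f (t.eval S v) = t.eval S' (fun n => f (v n)) := by
  induction t with
  | var n => rfl
  | imp s t ihs iht => simp only [Tm.eval, hf.1, ihs, iht]
  | comp s t ihs iht => simp only [Tm.eval, hf.2, ihs, iht]

/-- **The class `R` of representable implication semigroups is not a variety.**  It is not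
closed under homomorphic images, and it is not the class of all (nonempty) models of any set of
equations in the signature `(→, ;)`. -/
theorem result : ¬ ClosedUnderImages ∧
    ¬ ∃ E : Set (Tm × Tm), ∀ (A : Type) [Nonempty A] (S : Ops A),
      Representable S ↔ Models S E := by
  refine ⟨fun hcl => ?_, ?_⟩
  · exact not_representable_algB
      (hcl _ _ algA algB proj proj_surjective proj_isHom representable_algA)
  · rintro ⟨E, hE⟩
    refine not_representable_algB ((hE (Fin 7) algB).mpr ?_)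
    have hA := (hE (Fin 9) algA).mp representable_algA
    intro e he v
    obtain ⟨g, hg⟩ := proj_surjective.hasRightInverse
    have h1 := hA e he (fun n => g (v n))
    have h2 := congrArg proj h1
    rw [eval_hom proj_isHom, eval_hom proj_isHom] at h2
    have h3 : (fun n => proj (g (v n))) = v := by
      funext n
      exact hg (v n)
    rw [h3] at h2
    exact h2

end Pool.Agent.Results.MP_390e14_lc.NotVariety
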